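import Pool.Agent.Work.MP_954b6f_h30.Strip2

/-!
# The strip system: counting, and the lower bound
-/

set_option autoImplicit false
set_option linter.unusedSectionVars false

open Finset

namespace CG30

open CircleKst CGr

/-- the links at a vertex: kind and offset -/
def lk (j : ℕ) : ℕ × ℕ :=
  if j = 0 then (2, 2) else if j = 1 then (1, 2) else if j = 2 then (1, 1) else (2, 0)

/-- pairs of links -/
def pr (j : ℕ) : ℕ × ℕ :=
  if j = 0 then (0, 1) else if j = 1 then (0, 2) else if j = 2 then (0, 3)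
  else if j = 3 then (1, 2) else if j = 4 then (1, 3) else (2, 3)

/-- red and blue member of the 17 kinds of crossings at a vertex (`b`: odd vertex) -/
def tr (b : Bool) (j : ℕ) : ℕ × ℕ :=
  if j < 5 then (0, 2)
  else if j < 9 then lk (j - 5)
  else if j < 15 then (if b then lk (pr (j - 9)).1 else lk (pr (j - 9)).2)
  else if j = 15 then (1, 2) else (2, 2)

def tb (b : Bool) (j : ℕ) : ℕ × ℕ :=
  if j = 0 then (0, 2)
  else if j < 5 then lk (j - 1)
  else if j < 9 then (0, 2)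
  else if j < 15 then (if b then lk (pr (j - 9)).2 else lk (pr (j - 9)).1)
  else if j = 15 then (1, 2) else (2, 2)

lemma tr_le : ∀ b : Bool, ∀ j : Fin 17, (tr b j).1 < 3 ∧ (tr b j).2 < 3 := by decide
lemma tb_le : ∀ b : Bool, ∀ j : Fin 17, (tb b j).1 < 3 ∧ (tb b j).2 < 3 := by decide

set_option maxRecDepth 20000 in
lemma tab_inj : ∀ p p2 : Bool, ∀ j j2 : Fin 17, ∀ d : Fin 5,
    (xor p p2 = decide (d.1 % 2 = 1)) → (tr p j).1 = (tr p2 j2).1 → (tb p j).1 = (tb p2 j2).1 →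
    (tr p j).2 + 2 = (tr p2 j2).2 + d → (tb p j).2 + 2 = (tb p2 j2).2 + d → j = j2 ∧ d.1 = 2 := by
  decide

/-- parity of the vertex `i + 2` -/
def odd (i : ℕ) : Bool := decide (i % 2 = 1)

/-- the crossings -/
def ff (m : ℕ) (x : Fin m × Fin 17) : Q (m + 2) × Q (m + 2) :=
  ((true, ⟨(tr (odd x.1) x.2).1, (tr_le _ _).1⟩,
      ⟨x.1.1 + (tr (odd x.1) x.2).2, by have := (tr_le (odd x.1) x.2).2; omega⟩),
   (false, ⟨(tb (odd x.1) x.2).1, (tb_le _ _).1⟩,
      ⟨x.1.1 + (tb (odd x.1) x.2).2, by have := (tb_le (odd x.1) x.2).2; omega⟩))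

lemma ff_inj (m : ℕ) : Function.Injective (ff m) := by
  rintro ⟨i, j⟩ ⟨i2, j2⟩ h
  unfold ff at h
  simp only [Prod.mk.injEq, Fin.mk.injEq, true_and] at h
  obtain ⟨⟨h1, h2⟩, h3, h4⟩ := h
  have a1 := (tr_le (odd i) j).2
  have a2 := (tr_le (odd i2) j2).2
  have hd : i2.1 + 2 - i.1 < 5 := by omega
  have hd2 : i.1 ≤ i2.1 + 2 := by omega
  have := tab_inj (odd i) (odd i2) j j2 ⟨i2.1 + 2 - i.1, hd⟩ (by
    unfold odd
    rcases Nat.mod_two_eq_zero_or_one i.1 with e1 | e1 <;>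
    rcases Nat.mod_two_eq_zero_or_one i2.1 with e2 | e2 <;>
    simp only [e1, e2] <;> simp <;> omega) h1 h3 (by simp only; omega) (by simp only; omega)
  obtain ⟨e1, e2⟩ := this
  simp only at e2
  exact Prod.ext (Fin.ext (by simp only; omega)) e1

lemma ff_cr (m : ℕ) (x : Fin m × Fin 17) :
    (strip (m + 2)).Cr (ff m x).1 (ff m x).2 ∧ (strip (m + 2)).col (ff m x).1 = true := by
  refine ⟨?_, rfl⟩
  rw [strip_rb rfl rfl]
  obtain ⟨⟨i, hi⟩, j⟩ := x
  unfold ff kz iz odd R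
  rcases Nat.mod_two_eq_zero_or_one i with e1 | e1 <;> fin_cases j <;>
  simp only [e1, tr, tb, lk, pr] <;> simp <;> omega

lemma tr_zero : ∀ b : Bool, ∀ j : Fin 17, (tr b j).1 = 0 ↔ j.1 < 5 := by decide
lemma tb_zero : ∀ b : Bool, ∀ j : Fin 17, (tb b j).1 = 0 ↔ j.1 = 0 ∨ (5 ≤ j.1 ∧ j.1 < 9) := by
  decide

lemma wt_ff1 (m G σ : ℕ) (x : Fin m × Fin 17) :
    wt G σ (ff m x).1 = if x.2.1 < 5 then G else σ := by
  unfold wt ff
  simp only [← tr_zero (odd x.1) x.2]
  congr 1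
  apply propext
  constructor
  · intro h
    exact congrArg Fin.val h
  · intro h
    exact Fin.ext h

lemma wt_ff2 (m G σ : ℕ) (x : Fin m × Fin 17) :
    wt G σ (ff m x).2 = if x.2.1 = 0 ∨ (5 ≤ x.2.1 ∧ x.2.1 < 9) then G else σ := by
  unfold wt ff
  simp only [← tb_zero (odd x.1) x.2]
  congr 1
  apply propext
  constructor
  · intro h
    exact congrArg Fin.val h
  · intro h
    exact Fin.ext h

lemma sum_w (m G σ : ℕ) :
    ∑ x, wt G σ (ff m x).1 * wt G σ (ff m x).2 = m * (G * G + 8 * (G * σ) + 8 * (σ * σ)) := by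
  rw [Fintype.sum_prod_type]
  have h : ∀ i : Fin m, ∑ j : Fin 17, wt G σ (ff m (i, j)).1 * wt G σ (ff m (i, j)).2 =
      G * G + 8 * (G * σ) + 8 * (σ * σ) := by
    intro i
    simp only [wt_ff1, wt_ff2]
    simp only [Fin.sum_univ_succ]
    simp
    ring
  rw [sum_congr rfl (fun i _ => h i), sum_const, card_univ, Fintype.card_fin, smul_eq_mul]

lemma sum_v (m G σ : ℕ) : ∑ q : Q m, wt G σ q = 2 * m * (G + 2 * σ) := by
  rw [Fintype.sum_prod_type]
  simp only [Fintype.sum_prod_type, wt, Fin.sum_univ_three, sum_const, card_univ,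
    Fintype.card_fin, smul_eq_mul]
  simp
  ring

/-- the lower bound from the strip -/
theorem strip_bound {σ τ : ℕ} (h4 : 4 * σ ≤ τ) (h0 : 0 < τ) {u : ℝ}
    (hu : u ∈ upperBounds (avgDegrees (σ + 1) (τ + 1))) :
    ((τ : ℝ) ^ 2 - 8 * σ ^ 2) / (τ - 2 * σ) ≤ u := by
  obtain ⟨G, rfl⟩ : ∃ G, τ = G + 4 * σ := ⟨τ - 4 * σ, by omega⟩
  have hY : (0 : ℝ) < (G : ℝ) + 2 * σ := by
    have : 0 < G + 2 * σ := by omega
    exact_mod_cast this
  have key : ∀ m : ℕ, ((m : ℝ) * (G * G + 8 * (G * σ) + 8 * (σ * σ))) /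
      (((m : ℝ) + 2) * (G + 2 * σ)) ≤ u := by
    intro m
    have hcard : Fintype.card (Sys.BV (wt (M := m + 2) G σ)) = 2 * (m + 2) * (G + 2 * σ) := by
      rw [Fintype.card_sigma]
      simp only [Fintype.card_fin]
      exact sum_v (m + 2) G σ
    have hne : Nonempty (Sys.BV (wt (M := m + 2) G σ)) := by
      rw [← Fintype.card_pos_iff, hcard]
      have : 0 < G + 2 * σ := by omega
      positivity
    have hcl : InClass (σ + 1) (G + 4 * σ + 1) ((strip (m + 2)).bu (wt (M := m + 2) G σ)) := by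
      refine ⟨Sys.bu_circle (K := G + σ) ?_, Sys.bu_colorable, Sys.bu_free ?_ ?_⟩
      · intro q
        unfold wt
        split_ifs <;> omega
      · intro p q hpq hc
        exact H1 p q hpq hc
      · intro p
        exact H2 p
    have h1 := hu (mem_avg hcl)
    have h2 := Sys.bu_edges (w := wt (M := m + 2) G σ) (ff m) (ff_inj m) (ff_cr m)
    rw [sum_w] at h2
    rw [hcard] at h1
    have h3 : (m : ℝ) * (G * G + 8 * (G * σ) + 8 * (σ * σ)) ≤
        (((strip (m + 2)).bu (wt (M := m + 2) G σ)).edgeSet.ncard : ℝ) := by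
      exact_mod_cast h2
    refine le_trans ?_ h1
    push_cast
    rw [div_le_div_iff₀ (by positivity) (by positivity)]
    nlinarith [mul_le_mul_of_nonneg_right h3 (by positivity : (0 : ℝ) ≤ 2 * ((m : ℝ) + 2) * (G + 2 * σ))]
  push_cast
  have e1 : (((G : ℝ) + 4 * σ) ^ 2 - 8 * σ ^ 2) / (G + 4 * σ - 2 * σ) =
      (G * G + 8 * (G * σ) + 8 * (σ * σ)) / (G + 2 * σ) := by
    congr 1 <;> ring
  rw [e1]
  set X : ℝ := (G * G + 8 * (G * σ) + 8 * (σ * σ)) with hX
  set Y : ℝ := (G : ℝ) + 2 * σ with hYd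
  have hX0 : 0 ≤ X := by positivity
  by_contra hc
  rw [not_le] at hc
  have hlim : Filter.Tendsto (fun m : ℕ => ((m : ℝ) * X) / (((m : ℝ) + 2) * Y)) Filter.atTop
      (nhds (X / Y)) := by
    have h1 : Filter.Tendsto (fun m : ℕ => (m : ℝ) / ((m : ℝ) + 2)) Filter.atTop (nhds 1) := by
      have := tendsto_natCast_div_add_atTop (𝕜 := ℝ) 2
      exact this
    have h2 := h1.mul_const (X / Y)
    rw [one_mul] at h2
    refine h2.congr (fun m => ?_)
    rw [div_mul_div_comm]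
  exact absurd (le_of_tendsto' hlim key) (not_le.2 hc)

end CG30
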