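import Pool.Agent.Work.MP_954b6f_h30.Blow

/-!
# The diagonal band: `d(s,t) ≥ (s-1) + (t-1)`
-/

set_option autoImplicit false
set_option linter.unusedSectionVars false

open Finset

namespace CG30

open CircleKst CGr

/-- the band graph -/
def band (N l : ℕ) : SimpleGraph (Fin N ⊕ Fin N) where
  Adj u v := match u, v with
    | Sum.inl i, Sum.inr j => i.1 ≤ j.1 ∧ j.1 < i.1 + l
    | Sum.inr j, Sum.inl i => i.1 ≤ j.1 ∧ j.1 < i.1 + l
    | _, _ => False
  symm := ⟨by
    rintro (i | i) (j | j) h
    · exact h
    · exact h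
    · exact h
    · exact h⟩
  loopless := ⟨by
    rintro (i | i) h
    · exact h
    · exact h⟩

variable {N l : ℕ}

lemma band_circle : IsCircleGraph (band N l) := by
  apply circle_of_overlap
  refine ⟨fun v => (((Sum.elim (fun i : Fin N => -(2 * ((i.1 : ℤ) + l)) - 2)
      (fun j : Fin N => -(2 * ((j.1 : ℤ) + l)) - 3) v) : ℤ) : ℝ),
    fun v => (((Sum.elim (fun i : Fin N => 2 * ((i.1 : ℤ) + l))
      (fun j : Fin N => 2 * (j.1 : ℤ) + 1) v) : ℤ) : ℝ), ?_, ?_, ?_⟩
  · rintro ((i | i) | (i | i)) ((j | j) | (j | j)) h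
    all_goals
      simp only [Sum.elim_inl, Sum.elim_inr, Int.cast_inj] at h
      first
      | (exfalso; omega)
      | (have : i = j := Fin.ext (by omega)
         rw [this])
  · rintro (i | i)
    all_goals
      simp only [Sum.elim_inl, Sum.elim_inr, Int.cast_lt]
      omega
  · rintro (i | i) (j | j)
    · simp only [Sum.elim_inl, Int.cast_lt]
      change False ↔ _
      rw [false_iff]
      omega
    · simp only [Sum.elim_inl, Sum.elim_inr, Int.cast_lt]
      change (i.1 ≤ j.1 ∧ j.1 < i.1 + l) ↔ _
      omega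
    · simp only [Sum.elim_inl, Sum.elim_inr, Int.cast_lt]
      change (j.1 ≤ i.1 ∧ i.1 < j.1 + l) ↔ _
      omega
    · simp only [Sum.elim_inr, Int.cast_lt]
      change False ↔ _
      rw [false_iff]
      omega

lemma band_colorable : (band N l).Colorable 2 := by
  have c : (band N l).Coloring Bool := SimpleGraph.Coloring.mk
    (fun v => Sum.elim (fun _ => true) (fun _ => false) v) (by
      rintro (i | i) (j | j) h
      · exact absurd h (by simp [band])
      · simp
      · simp
      · exact absurd h (by simp [band]))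
  have := c.colorable
  simpa using this

/-- a set of `σ + 1` numbers has two members at distance at least `σ` -/
lemma spread {σ : ℕ} {f : Fin (σ + 1) → ℕ} (hf : Function.Injective f) :
    ∃ i j, f i + σ ≤ f j := by
  by_contra hc
  push Not at hc
  obtain ⟨i, -, hi⟩ := exists_min_image univ f ⟨0, mem_univ _⟩
  have h1 : (univ.image f) ⊆ Finset.Ico (f i) (f i + σ) := by
    intro x hx
    rw [mem_image] at hx
    obtain ⟨j, -, rfl⟩ := hx
    rw [Finset.mem_Ico]
    exact ⟨hi j (mem_univ _), hc i j⟩
  have h2 := card_le_card h1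
  rw [card_image_of_injective _ hf, card_univ, Fintype.card_fin, Nat.card_Ico] at h2
  omega

lemma band_free {σ τ : ℕ} (hl : l = σ + τ) :
    (completeBipartiteGraph (Fin (σ + 1)) (Fin (τ + 1))).Free (band N l) := by
  rintro ⟨⟨f, hf⟩⟩
  have h1 : Function.Injective (fun i : Fin (σ + 1) => f (Sum.inl i)) := fun i j hij =>
    Sum.inl_injective (hf hij)
  have h2 : Function.Injective (fun i : Fin (τ + 1) => f (Sum.inr i)) := fun i j hij =>
    Sum.inr_injective (hf hij)
  have key : ∀ i j, (band N l).Adj (f (Sum.inl i)) (f (Sum.inr j)) := by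
    intro i j
    apply f.map_rel
    simp [completeBipartiteGraph]
  let val : Fin N ⊕ Fin N → ℕ := Sum.elim Fin.val Fin.val
  -- all left vertices have the same colour
  rcases h0 : f (Sum.inr 0) with b | b
  · -- left part blue
    have hL : ∀ i, ∃ a, f (Sum.inl i) = Sum.inr a := by
      intro i
      have := key i 0
      rw [h0] at this
      rcases h3 : f (Sum.inl i) with a | a
      · rw [h3] at this
        exact absurd this (by simp [band])
      · exact ⟨a, rfl⟩
    have hR : ∀ j, ∃ a, f (Sum.inr j) = Sum.inl a := by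
      intro j
      have := key 0 j
      obtain ⟨a, ha⟩ := hL 0
      rw [ha] at this
      rcases h3 : f (Sum.inr j) with c | c
      · exact ⟨c, rfl⟩
      · rw [h3] at this
        exact absurd this (by simp [band])
    choose x hx using hL
    choose y hy using hR
    have hxi : Function.Injective (fun i => (x i).1) := by
      intro i j hij
      apply h1
      change f (Sum.inl i) = f (Sum.inl j)
      rw [hx, hx, Fin.ext hij]
    have hyi : Function.Injective (fun i => (y i).1) := by
      intro i j hij
      apply h2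
      change f (Sum.inr i) = f (Sum.inr j)
      rw [hy, hy, Fin.ext hij]
    obtain ⟨i, j, hij⟩ := spread hxi
    obtain ⟨k, k', hk⟩ := spread hyi
    have a1 := key i k
    have a2 := key i k'
    have a3 := key j k
    have a4 := key j k'
    rw [hx, hy] at a1 a2 a3 a4
    simp only [band] at a1 a2 a3 a4
    omega
  · have hL : ∀ i, ∃ a, f (Sum.inl i) = Sum.inl a := by
      intro i
      have := key i 0
      rw [h0] at this
      rcases h3 : f (Sum.inl i) with a | a
      · exact ⟨a, rfl⟩
      · rw [h3] at this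
        exact absurd this (by simp [band])
    have hR : ∀ j, ∃ a, f (Sum.inr j) = Sum.inr a := by
      intro j
      have := key 0 j
      obtain ⟨a, ha⟩ := hL 0
      rw [ha] at this
      rcases h3 : f (Sum.inr j) with c | c
      · rw [h3] at this
        exact absurd this (by simp [band])
      · exact ⟨c, rfl⟩
    choose x hx using hL
    choose y hy using hR
    have hxi : Function.Injective (fun i => (x i).1) := by
      intro i j hij
      apply h1
      change f (Sum.inl i) = f (Sum.inl j)
      rw [hx, hx, Fin.ext hij]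
    have hyi : Function.Injective (fun i => (y i).1) := by
      intro i j hij
      apply h2
      change f (Sum.inr i) = f (Sum.inr j)
      rw [hy, hy, Fin.ext hij]
    obtain ⟨i, j, hij⟩ := spread hxi
    obtain ⟨k, k', hk⟩ := spread hyi
    have a1 := key i k
    have a2 := key i k'
    have a3 := key j k
    have a4 := key j k'
    rw [hx, hy] at a1 a2 a3 a4
    simp only [band] at a1 a2 a3 a4
    omega

lemma band_edges (m : ℕ) (l : ℕ) : m * l ≤ (band (m + l) l).edgeSet.ncard := by
  let g : Fin m × Fin l → (band (m + l) l).edgeSet := fun x =>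
    ⟨s(Sum.inl ⟨x.1.1, by omega⟩, Sum.inr ⟨x.1.1 + x.2.1, by omega⟩), by
      rw [SimpleGraph.mem_edgeSet]
      simp only [band]
      omega⟩
  have hg : Function.Injective g := by
    rintro ⟨i, j⟩ ⟨i', j'⟩ h
    have h1 := congrArg Subtype.val h
    simp only [g, Sym2.eq_iff, Sum.inl.injEq, Sum.inr.injEq, Fin.mk.injEq, reduceCtorEq,
      and_false, or_false] at h1
    exact Prod.ext (Fin.ext h1.1) (Fin.ext (by simp only; omega))
  have h2 := Nat.card_le_card_of_injective g hg
  rw [Nat.card_eq_fintype_card, Fintype.card_prod, Fintype.card_fin, Fintype.card_fin] at h2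
  exact h2

theorem band_bound {σ τ : ℕ} {u : ℝ}
    (hu : u ∈ upperBounds (avgDegrees (σ + 1) (τ + 1))) : (σ : ℝ) + τ ≤ u := by
  have key : ∀ m : ℕ, ((m : ℝ) + 1) / ((m : ℝ) + 1 + (σ + τ)) * ((σ : ℝ) + τ) ≤ u := by
    intro m
    have hne : Nonempty (Fin (m + 1 + (σ + τ)) ⊕ Fin (m + 1 + (σ + τ))) :=
      ⟨Sum.inl ⟨0, by omega⟩⟩
    have h1 := hu (mem_avg (G := band (m + 1 + (σ + τ)) (σ + τ)) (s := σ + 1) (t := τ + 1)
      ⟨band_circle, band_colorable, band_free rfl⟩)
    have h2 := band_edges (m + 1) (σ + τ)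
    have h3 : ((m : ℝ) + 1) * (σ + τ) ≤
        ((band (m + 1 + (σ + τ)) (σ + τ)).edgeSet.ncard : ℝ) := by
      exact_mod_cast h2
    refine le_trans ?_ h1
    rw [Fintype.card_sum, Fintype.card_fin]
    push_cast
    rw [div_mul_eq_mul_div, div_le_div_iff₀ (by positivity) (by positivity)]
    nlinarith [mul_le_mul_of_nonneg_right h3
      (by positivity : (0 : ℝ) ≤ 2 * ((m : ℝ) + 1 + (σ + τ)))]
  have hlim : Filter.Tendsto (fun m : ℕ => ((m : ℝ) + 1) / ((m : ℝ) + 1 + (σ + τ)) *
      ((σ : ℝ) + τ)) Filter.atTop (nhds ((σ : ℝ) + τ)) := by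
    have h1 : Filter.Tendsto (fun m : ℕ => (m : ℝ) / ((m : ℝ) + ((σ : ℝ) + τ))) Filter.atTop
        (nhds 1) := tendsto_natCast_div_add_atTop (𝕜 := ℝ) ((σ : ℝ) + τ)
    have h2 := (h1.comp (Filter.tendsto_add_atTop_nat 1)).mul_const ((σ : ℝ) + τ)
    rw [one_mul] at h2
    refine h2.congr (fun m => ?_)
    simp only [Function.comp_apply]
    push_cast
    rfl
  exact le_of_tendsto' hlim key

end CG30
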