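import Pool.Agent.Work.MP_954b6f_co_helper49.Main

/-!
# Blow-ups of two-coloured chord systems
-/

set_option autoImplicit false
set_option linter.unusedSectionVars false

open Finset

namespace CG30

open CircleKst CGr

/-- a two-coloured system of chords of a line, noncrossing in each colour -/
structure Sys (Q : Type) where
  a : Q → ℤ
  b : Q → ℤ
  col : Q → Bool
  lt : ∀ q, a q < b q
  inj : Function.Injective (Sum.elim a b)
  nc : ∀ p q, col p = col q → ¬ (a p < a q ∧ a q < b p ∧ b p < b q)

namespace Sys

variable {Q : Type} (S : Sys Q)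

/-- the chords cross -/
def Cr (p q : Q) : Prop :=
  (S.a p < S.a q ∧ S.a q < S.b p ∧ S.b p < S.b q) ∨
    (S.a q < S.a p ∧ S.a p < S.b q ∧ S.b q < S.b p)

instance (p q : Q) : Decidable (S.Cr p q) := by unfold Cr; infer_instance

lemma cr_symm {p q : Q} (h : S.Cr p q) : S.Cr q p := Or.symm h

lemma cr_irrefl {p : Q} : ¬ S.Cr p p := by
  unfold Cr
  omega

lemma cr_col {p q : Q} (h : S.Cr p q) : S.col p ≠ S.col q := by
  intro hc
  rcases h with h | h
  · exact S.nc p q hc h
  · exact S.nc q p hc.symm h

/-- vertices of the blow-up: `w q` copies of the chord `q` -/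
abbrev BV (w : Q → ℕ) := Σ q : Q, Fin (w q)

/-- the blow-up -/
def bu (w : Q → ℕ) : SimpleGraph (BV w) where
  Adj u v := S.Cr u.1 v.1
  symm := ⟨fun _ _ h => S.cr_symm h⟩
  loopless := ⟨fun _ h => S.cr_irrefl h⟩

variable {S} {w : Q → ℕ}

lemma bu_adj {u v : BV w} : (S.bu w).Adj u v ↔ S.Cr u.1 v.1 := Iff.rfl

lemma key_lt {K : ℕ} {x y i j : ℤ} (h : x < y) (hi : i < K) (hj : 0 ≤ j) :
    (K : ℤ) * x + i < K * y + j := by
  have : (0 : ℤ) ≤ K := by positivity
  nlinarith

lemma key_eq {K : ℕ} {x y i j : ℤ} (hi0 : 0 ≤ i) (hi : i < K) (hj0 : 0 ≤ j) (hj : j < K)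
    (h : (K : ℤ) * x + i = K * y + j) : x = y ∧ i = j := by
  rcases lt_trichotomy x y with h1 | h1 | h1
  · have := key_lt h1 hi hj0
    omega
  · subst h1
    exact ⟨rfl, by omega⟩
  · have := key_lt h1 hj hi0
    omega

theorem bu_circle {K : ℕ} (hK : ∀ q, w q ≤ K) : IsCircleGraph (S.bu w) := by
  have hinj := inj_facts S.inj
  have hne : ∀ p q, S.a p ≠ S.b q := hinj.2.2
  apply circle_of_overlap
  refine ⟨fun v => (((K : ℤ) * S.a v.1 + v.2.1 : ℤ) : ℝ),
    fun v => (((K : ℤ) * S.b v.1 + (w v.1 - 1 - v.2.1) : ℤ) : ℝ), ?_, ?_, ?_⟩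
  · have bd : ∀ v : BV w, (0 : ℤ) ≤ v.2.1 ∧ (v.2.1 : ℤ) < w v.1 ∧ (w v.1 : ℤ) ≤ K := by
      intro v
      have h1 := v.2.2
      have h2 := hK v.1
      refine ⟨by positivity, by exact_mod_cast h1, by exact_mod_cast h2⟩
    rintro (⟨p, i⟩ | ⟨p, i⟩) (⟨q, j⟩ | ⟨q, j⟩) h
    all_goals
      simp only [Sum.elim_inl, Sum.elim_inr, Int.cast_inj] at h
      have b1 := bd ⟨p, i⟩
      have b2 := bd ⟨q, j⟩
      simp only at b1 b2
      obtain ⟨h1, h2⟩ := key_eq (by omega) (by omega) (by omega) (by omega) h
    · have hpq : p = q := by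
        by_contra hc
        exact hinj.1 p q hc h1
      subst hpq
      have : i = j := Fin.ext (by omega)
      rw [this]
    · exact absurd h1 (hne p q)
    · exact absurd h1.symm (hne q p)
    · have hpq : p = q := by
        by_contra hc
        exact hinj.2.1 p q hc h1
      subst hpq
      have : i = j := Fin.ext (by omega)
      rw [this]
  · rintro ⟨p, i⟩
    have h1 := S.lt p
    have h2 := i.2
    have h3 := hK p
    have h4 : (i.1 : ℤ) < K := by omega
    have h5 : (K : ℤ) * S.a p + i.1 < K * S.b p + (w p - 1 - i.1) :=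
      key_lt h1 h4 (by omega)
    change (((K : ℤ) * S.a p + i.1 : ℤ) : ℝ) < (((K : ℤ) * S.b p + (w p - 1 - i.1) : ℤ) : ℝ)
    exact_mod_cast h5
  · rintro ⟨p, i⟩ ⟨q, j⟩
    rw [bu_adj, Cr]
    simp only [Int.cast_lt]
    have hi : (i.1 : ℤ) < w p := by exact_mod_cast i.2
    have hj : (j.1 : ℤ) < w q := by exact_mod_cast j.2
    have hp : (w p : ℤ) ≤ K := by exact_mod_cast hK p
    have hq : (w q : ℤ) ≤ K := by exact_mod_cast hK q
    by_cases hpq : p = q
    · subst hpq
      omega
    · have ha : S.a p ≠ S.a q := hinj.1 p q hpq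
      have hb : S.b p ≠ S.b q := hinj.2.1 p q hpq
      have hab := hne p q
      have hba := hne q p
      have c1 : (K : ℤ) * S.a p + i.1 < K * S.a q + j.1 ↔ S.a p < S.a q := by
        constructor
        · intro h
          by_contra hc
          have := key_lt (K := K) (x := S.a q) (y := S.a p) (i := j.1) (j := i.1) (by omega)
            (by omega) (by omega)
          omega
        · intro h
          exact key_lt h (by omega) (by omega)
      have c1' : (K : ℤ) * S.a q + j.1 < K * S.a p + i.1 ↔ S.a q < S.a p := by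
        constructor
        · intro h
          by_contra hc
          have := key_lt (K := K) (x := S.a p) (y := S.a q) (i := i.1) (j := j.1) (by omega)
            (by omega) (by omega)
          omega
        · intro h
          exact key_lt h (by omega) (by omega)
      have c2 : (K : ℤ) * S.b p + (w p - 1 - i.1) < K * S.b q + (w q - 1 - j.1) ↔
          S.b p < S.b q := by
        constructor
        · intro h
          by_contra hc
          have := key_lt (K := K) (x := S.b q) (y := S.b p) (i := w q - 1 - j.1)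
            (j := w p - 1 - i.1) (by omega) (by omega) (by omega)
          omega
        · intro h
          exact key_lt h (by omega) (by omega)
      have c2' : (K : ℤ) * S.b q + (w q - 1 - j.1) < K * S.b p + (w p - 1 - i.1) ↔
          S.b q < S.b p := by
        constructor
        · intro h
          by_contra hc
          have := key_lt (K := K) (x := S.b p) (y := S.b q) (i := w p - 1 - i.1)
            (j := w q - 1 - j.1) (by omega) (by omega) (by omega)
          omega
        · intro h
          exact key_lt h (by omega) (by omega)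
      have c3 : (K : ℤ) * S.a q + j.1 < K * S.b p + (w p - 1 - i.1) ↔ S.a q < S.b p := by
        constructor
        · intro h
          by_contra hc
          have := key_lt (K := K) (x := S.b p) (y := S.a q) (i := w p - 1 - i.1)
            (j := j.1) (by omega) (by omega) (by omega)
          omega
        · intro h
          exact key_lt h (by omega) (by omega)
      have c3' : (K : ℤ) * S.a p + i.1 < K * S.b q + (w q - 1 - j.1) ↔ S.a p < S.b q := by
        constructor
        · intro h
          by_contra hc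
          have := key_lt (K := K) (x := S.b q) (y := S.a p) (i := w q - 1 - j.1)
            (j := i.1) (by omega) (by omega) (by omega)
          omega
        · intro h
          exact key_lt h (by omega) (by omega)
      rw [c1, c1', c2, c2', c3, c3']

lemma bu_colorable : (S.bu w).Colorable 2 := by
  have c : (S.bu w).Coloring Bool := SimpleGraph.Coloring.mk (fun v => S.col v.1) (by
    intro u v huv
    exact S.cr_col huv)
  have := c.colorable
  simpa using this

/-- total weight of the chords crossing all chords of a set -/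
lemma card_le_of_common [Fintype Q] [DecidableEq Q] {m : ℕ} {f : Fin m → BV w}
    (hf : Function.Injective f) (P : Q → Prop) [DecidablePred P] (hP : ∀ i, P (f i).1) :
    m ≤ ∑ q ∈ univ.filter P, w q := by
  classical
  have h1 : Fintype.card (Fin m) ≤ ((univ.filter P).sigma (fun q => (univ : Finset (Fin (w q))))).card := by
    rw [← Finset.card_univ]
    apply card_le_card_of_injOn f
    · intro i _
      simp [hP i]
    · intro i _ j _ h
      exact hf h
  rw [card_sigma] at h1
  simpa using h1

/-- the criterion: no `K_{σ+1,τ+1}` -/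
theorem bu_free [Fintype Q] [DecidableEq Q] {σ τ : ℕ}
    (H1 : ∀ p q, p ≠ q → S.col p = S.col q → ∑ r ∈ univ.filter (fun r => S.Cr p r ∧ S.Cr q r), w r ≤ τ)
    (H2 : ∀ p, w p ≤ σ ∨ ∑ r ∈ univ.filter (fun r => S.Cr p r), w r ≤ τ) :
    (completeBipartiteGraph (Fin (σ + 1)) (Fin (τ + 1))).Free (S.bu w) := by
  rintro ⟨⟨f, hf⟩⟩
  have h1 : Function.Injective (fun i : Fin (σ + 1) => f (Sum.inl i)) := fun i j hij =>
    Sum.inl_injective (hf hij)
  have h2 : Function.Injective (fun i : Fin (τ + 1) => f (Sum.inr i)) := fun i j hij =>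
    Sum.inr_injective (hf hij)
  have key : ∀ i j, S.Cr (f (Sum.inl i)).1 (f (Sum.inr j)).1 := by
    intro i j
    rw [← bu_adj]
    apply f.map_rel
    simp [completeBipartiteGraph]
  by_cases hc : ∃ i j : Fin (σ + 1), (f (Sum.inl i)).1 ≠ (f (Sum.inl j)).1
  · obtain ⟨i, j, hij⟩ := hc
    have hcol : S.col (f (Sum.inl i)).1 = S.col (f (Sum.inl j)).1 := by
      have a1 := S.cr_col (key i 0)
      have a2 := S.cr_col (key j 0)
      revert a1 a2
      cases S.col (f (Sum.inl i)).1 <;> cases S.col (f (Sum.inl j)).1 <;>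
        cases S.col (f (Sum.inr 0)).1 <;> simp
    have h3 := H1 _ _ hij hcol
    have h4 := card_le_of_common h2
      (fun r => S.Cr (f (Sum.inl i)).1 r ∧ S.Cr (f (Sum.inl j)).1 r) (fun k => ⟨key i k, key j k⟩)
    omega
  · push Not at hc
    have hw : σ + 1 ≤ w (f (Sum.inl 0)).1 := by
      have h5 := card_le_of_common h1 (fun r => r = (f (Sum.inl 0)).1) (fun i => hc i 0)
      rw [Finset.filter_eq' univ (f (Sum.inl 0)).1, if_pos (mem_univ _), sum_singleton] at h5
      exact h5
    rcases H2 (f (Sum.inl 0)).1 with h3 | h3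
    · omega
    · have h4 := card_le_of_common h2 (fun r => S.Cr (f (Sum.inl 0)).1 r) (fun k => key 0 k)
      omega

/-- counting edges -/
theorem bu_edges [Finite Q] {J : Type} [Fintype J] (f : J → Q × Q) (hf : Function.Injective f)
    (h : ∀ j, S.Cr (f j).1 (f j).2 ∧ S.col (f j).1 = true) :
    ∑ j, w (f j).1 * w (f j).2 ≤ (S.bu w).edgeSet.ncard := by
  classical
  have hfin : (S.bu w).edgeSet.Finite := Set.toFinite _
  let T := Σ j : J, Fin (w (f j).1) × Fin (w (f j).2)
  let g : T → (S.bu w).edgeSet := fun x =>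
    ⟨s((⟨(f x.1).1, x.2.1⟩ : BV w), ⟨(f x.1).2, x.2.2⟩), by
      rw [SimpleGraph.mem_edgeSet, bu_adj]
      exact (h x.1).1⟩
  have hg : Function.Injective g := by
    rintro ⟨j, a, b⟩ ⟨k, c, d⟩ hjk
    have h1 := congrArg Subtype.val hjk
    simp only [g, Sym2.eq_iff] at h1
    have hjc := h j
    have hkc := h k
    have hj2 := S.cr_col hjc.1
    have hk2 := S.cr_col hkc.1
    rcases h1 with ⟨h2, h3⟩ | ⟨h2, h3⟩
    · have e1 : (f j).1 = (f k).1 := congrArg Sigma.fst h2
      have e2 : (f j).2 = (f k).2 := congrArg Sigma.fst h3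
      have e3 : j = k := hf (Prod.ext e1 e2)
      subst e3
      have e4 : a = c := by
        have := (Sigma.mk.inj h2).2
        exact eq_of_heq this
      have e5 : b = d := by
        have := (Sigma.mk.inj h3).2
        exact eq_of_heq this
      rw [e4, e5]
    · exfalso
      have e1 : (f j).1 = (f k).2 := congrArg Sigma.fst h2
      rw [← e1, hjc.2, hkc.2] at hk2
      exact hk2 rfl
  have h2 := Nat.card_le_card_of_injective g hg
  rw [Nat.card_eq_fintype_card, Fintype.card_sigma] at h2
  simp only [Fintype.card_prod, Fintype.card_fin] at h2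
  exact h2

end Sys

end CG30
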