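import Pool.Agent.Work.MP_954b6f_h30.Blow

/-!
# The square of a path, drawn with doubled edges
-/

set_option autoImplicit false
set_option linter.unusedSectionVars false

open Finset

namespace CG30

/-- left ends -/
def ea (c : Bool) (k i : ℤ) : ℤ :=
  if i % 2 = 0 then
    if k = 0 then 24 * (i / 2) + (if c then 0 else 8)
    else if k = 1 then -24 * (i / 2) - 24 + (if c then 16 else 4) + 2
    else 24 * (i / 2) + (if c then 16 else 4) + 3
  else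
    if k = 0 then -24 * (i / 2) - 24 + (if c then 0 else 8)
    else if k = 1 then -24 * (i / 2) - 24 + (if c then 16 else 4) + 1
    else -24 * (i / 2) - 48 + (if c then 16 else 4) + 3

/-- right ends -/
def eb (c : Bool) (k i : ℤ) : ℤ :=
  if i % 2 = 0 then
    if k = 0 then 24 * (i / 2) + (if c then 12 else 20)
    else if k = 1 then 24 * (i / 2) + (if c then 16 else 4) + 2
    else 24 * (i / 2) + 24 + (if c then 16 else 4)
  else
    if k = 0 then -24 * (i / 2) - 24 + (if c then 12 else 20)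
    else if k = 1 then 24 * (i / 2) + 24 + (if c then 16 else 4) + 1
    else -24 * (i / 2) - 24 + (if c then 16 else 4)

/-- overlapping of intervals -/
def ov (a b c d : ℤ) : Prop := (a < c ∧ c < b ∧ b < d) ∨ (c < a ∧ a < d ∧ d < b)

/-- the crossing relation (red, blue) -/
def R (k i k' i' : ℤ) : Prop :=
  (k = 0 ∧ k' = 0 ∧ i = i') ∨
  (k = 0 ∧ k' = 1 ∧ (i' = i ∨ i' + 1 = i)) ∨
  (k = 0 ∧ k' = 2 ∧ (i' = i ∨ i' + 2 = i)) ∨
  (k = 1 ∧ k' = 0 ∧ (i = i' ∨ i + 1 = i')) ∨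
  (k = 2 ∧ k' = 0 ∧ (i = i' ∨ i + 2 = i')) ∨
  (k = 1 ∧ k' = 1 ∧ (i = i' ∨ (i % 2 = 1 ∧ (i' = i + 1 ∨ i' + 1 = i)))) ∨
  (k = 1 ∧ k' = 2 ∧ ((i' = i ∧ i % 2 = 0) ∨ (i' + 2 = i ∧ i % 2 = 1) ∨
    (i' = i + 1 ∧ i % 2 = 1) ∨ (i' + 1 = i ∧ i % 2 = 0))) ∨
  (k = 2 ∧ k' = 1 ∧ ((i' = i ∧ i % 2 = 1) ∨ (i' = i + 2 ∧ i % 2 = 0) ∨
    (i' + 1 = i ∧ i % 2 = 1) ∨ (i' = i + 1 ∧ i % 2 = 0))) ∨
  (k = 2 ∧ k' = 2 ∧ (i = i' ∨ (i' = i + 2 ∧ i % 2 = 0) ∨ (i' + 2 = i ∧ i % 2 = 1)))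

lemma ov_iff {k i k' i' : ℤ} (hk : k = 0 ∨ k = 1 ∨ k = 2) (hk' : k' = 0 ∨ k' = 1 ∨ k' = 2)
    (hi : 0 ≤ i) (hi' : 0 ≤ i') :
    ov (ea true k i) (eb true k i) (ea false k' i') (eb false k' i') ↔ R k i k' i' := by
  rcases Int.emod_two_eq_zero_or_one i with h1 | h1 <;>
  rcases Int.emod_two_eq_zero_or_one i' with h2 | h2 <;>
  rcases hk with rfl | rfl | rfl <;> rcases hk' with rfl | rfl | rfl <;>
  simp only [ov, ea, eb, R, h1, h2, if_true, if_false, Bool.false_eq_true, one_ne_zero,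
    zero_ne_one, OfNat.ofNat_ne_zero, OfNat.ofNat_ne_one, true_and, and_true, false_and, and_false, false_or, or_false, OfNat.one_ne_ofNat, OfNat.zero_ne_ofNat] <;>
  omega

lemma e_lt {c : Bool} {k i : ℤ} (hk : k = 0 ∨ k = 1 ∨ k = 2) (hi : 0 ≤ i) :
    ea c k i < eb c k i := by
  rcases Int.emod_two_eq_zero_or_one i with h1 | h1 <;>
  rcases hk with rfl | rfl | rfl <;> cases c <;>
  simp only [ea, eb, h1, if_true, if_false, Bool.false_eq_true, one_ne_zero, zero_ne_one,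
    OfNat.ofNat_ne_zero, OfNat.ofNat_ne_one] <;> omega

lemma e_nc {c : Bool} {k i k' i' : ℤ} (hk : k = 0 ∨ k = 1 ∨ k = 2)
    (hk' : k' = 0 ∨ k' = 1 ∨ k' = 2) (hi : 0 ≤ i) (hi' : 0 ≤ i') :
    ¬ (ea c k i < ea c k' i' ∧ ea c k' i' < eb c k i ∧ eb c k i < eb c k' i') := by
  rcases Int.emod_two_eq_zero_or_one i with h1 | h1 <;>
  rcases Int.emod_two_eq_zero_or_one i' with h2 | h2 <;>
  rcases hk with rfl | rfl | rfl <;> rcases hk' with rfl | rfl | rfl <;> cases c <;>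
  simp only [ea, eb, h1, h2, if_true, if_false, Bool.false_eq_true, one_ne_zero, zero_ne_one,
    OfNat.ofNat_ne_zero, OfNat.ofNat_ne_one] <;> omega

lemma e_inj_aa {c c' : Bool} {k i k' i' : ℤ} (hk : k = 0 ∨ k = 1 ∨ k = 2)
    (hk' : k' = 0 ∨ k' = 1 ∨ k' = 2) (hi : 0 ≤ i) (hi' : 0 ≤ i') (h : ea c k i = ea c' k' i') :
    c = c' ∧ k = k' ∧ i = i' := by
  revert h
  rcases Int.emod_two_eq_zero_or_one i with h1 | h1 <;>
  rcases Int.emod_two_eq_zero_or_one i' with h2 | h2 <;>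
  rcases hk with rfl | rfl | rfl <;> rcases hk' with rfl | rfl | rfl <;> cases c <;> cases c' <;>
  simp only [ea, h1, h2, if_true, if_false, Bool.false_eq_true, one_ne_zero, zero_ne_one,
    OfNat.ofNat_ne_zero, OfNat.ofNat_ne_one] <;> intro h <;> first
    | (exfalso; omega)
    | exact ⟨trivial, trivial, by omega⟩

lemma e_inj_bb {c c' : Bool} {k i k' i' : ℤ} (hk : k = 0 ∨ k = 1 ∨ k = 2)
    (hk' : k' = 0 ∨ k' = 1 ∨ k' = 2) (hi : 0 ≤ i) (hi' : 0 ≤ i') (h : eb c k i = eb c' k' i') :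
    c = c' ∧ k = k' ∧ i = i' := by
  revert h
  rcases Int.emod_two_eq_zero_or_one i with h1 | h1 <;>
  rcases Int.emod_two_eq_zero_or_one i' with h2 | h2 <;>
  rcases hk with rfl | rfl | rfl <;> rcases hk' with rfl | rfl | rfl <;> cases c <;> cases c' <;>
  simp only [eb, h1, h2, if_true, if_false, Bool.false_eq_true, one_ne_zero, zero_ne_one,
    OfNat.ofNat_ne_zero, OfNat.ofNat_ne_one] <;> intro h <;> first
    | (exfalso; omega)
    | exact ⟨trivial, trivial, by omega⟩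

lemma e_inj_ab {c c' : Bool} {k i k' i' : ℤ} (hk : k = 0 ∨ k = 1 ∨ k = 2)
    (hk' : k' = 0 ∨ k' = 1 ∨ k' = 2) (hi : 0 ≤ i) (hi' : 0 ≤ i') : ea c k i ≠ eb c' k' i' := by
  rcases Int.emod_two_eq_zero_or_one i with h1 | h1 <;>
  rcases Int.emod_two_eq_zero_or_one i' with h2 | h2 <;>
  rcases hk with rfl | rfl | rfl <;> rcases hk' with rfl | rfl | rfl <;> cases c <;> cases c' <;>
  simp only [ea, eb, h1, h2, if_true, if_false, Bool.false_eq_true, one_ne_zero, zero_ne_one,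
    OfNat.ofNat_ne_zero, OfNat.ofNat_ne_one] <;> omega

end CG30
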