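import Pool.Agent.Work.MP_954b6f_h30.Strip

/-!
# The strip system: no large bicliques
-/

set_option autoImplicit false
set_option linter.unusedSectionVars false

open Finset

namespace CG30

/-- chord classes: colour, kind (0 block, 1 short edge, 2 long edge), index -/
abbrev Q (M : ℕ) := Bool × Fin 3 × Fin M

def kz {M : ℕ} (q : Q M) : ℤ := (q.2.1.1 : ℤ)
def iz {M : ℕ} (q : Q M) : ℤ := (q.2.2.1 : ℤ)

lemma kz_cases {M : ℕ} (q : Q M) : kz q = 0 ∨ kz q = 1 ∨ kz q = 2 := by
  have := q.2.1.2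
  unfold kz
  omega

lemma iz_nonneg {M : ℕ} (q : Q M) : 0 ≤ iz q := by
  unfold iz
  omega

lemma q_ext {M : ℕ} {p q : Q M} (h1 : p.1 = q.1) (h2 : kz p = kz q) (h3 : iz p = iz q) :
    p = q := by
  obtain ⟨c, ⟨k, hk⟩, ⟨i, hi⟩⟩ := p
  obtain ⟨c', ⟨k', hk'⟩, ⟨i', hi'⟩⟩ := q
  simp only [kz, iz, Nat.cast_inj] at h1 h2 h3
  subst h1 h2 h3
  rfl

/-- the chord system -/
def strip (M : ℕ) : Sys (Q M) where
  a q := ea q.1 (kz q) (iz q)
  b q := eb q.1 (kz q) (iz q)
  col q := q.1
  lt q := e_lt (kz_cases q) (iz_nonneg q)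
  inj := by
    rintro (p | p) (q | q) h
    · simp only [Sum.elim_inl] at h
      obtain ⟨h1, h2, h3⟩ := e_inj_aa (kz_cases p) (kz_cases q) (iz_nonneg p) (iz_nonneg q) h
      rw [q_ext h1 h2 h3]
    · simp only [Sum.elim_inl, Sum.elim_inr] at h
      exact absurd h (e_inj_ab (kz_cases p) (kz_cases q) (iz_nonneg p) (iz_nonneg q))
    · simp only [Sum.elim_inl, Sum.elim_inr] at h
      exact absurd h.symm (e_inj_ab (kz_cases q) (kz_cases p) (iz_nonneg q) (iz_nonneg p))
    · simp only [Sum.elim_inr] at h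
      obtain ⟨h1, h2, h3⟩ := e_inj_bb (kz_cases p) (kz_cases q) (iz_nonneg p) (iz_nonneg q) h
      rw [q_ext h1 h2 h3]
  nc p q h := by
    rw [h]
    exact e_nc (kz_cases p) (kz_cases q) (iz_nonneg p) (iz_nonneg q)

lemma strip_rb {M : ℕ} {p q : Q M} (hp : p.1 = true) (hq : q.1 = false) :
    (strip M).Cr p q ↔ R (kz p) (iz p) (kz q) (iz q) := by
  rw [← ov_iff (kz_cases p) (kz_cases q) (iz_nonneg p) (iz_nonneg q)]
  unfold Sys.Cr ov strip
  simp only [hp, hq]

/-- neighbours, seen from a chord of colour `c` -/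
def Nb (c : Bool) (k i k' i' : ℤ) : Prop := if c then R k i k' i' else R k' i' k i

lemma nb_of_cr {M : ℕ} {p q : Q M} (h : (strip M).Cr p q) :
    q.1 = !p.1 ∧ Nb p.1 (kz p) (iz p) (kz q) (iz q) := by
  have h1 := (strip M).cr_col h
  change p.1 ≠ q.1 at h1
  unfold Nb
  rcases hp : p.1 with _ | _ <;> rcases hq : q.1 with _ | _
  · rw [hp, hq] at h1
    exact absurd rfl h1
  · exact ⟨rfl, by simpa using (strip_rb hq hp).1 ((strip M).cr_symm h)⟩
  · exact ⟨rfl, by simpa using (strip_rb hp hq).1 h⟩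
  · rw [hp, hq] at h1
    exact absurd rfl h1

lemma nb_gen {c : Bool} {k i j : ℤ} (h : Nb c k i 0 j) : j = i ∨ j = i + k := by
  unfold Nb R at h
  cases c <;> simp only [if_true, if_false, Bool.false_eq_true] at h <;> omega

/-- the links crossing a chord -/
def EE (t : Bool) (k i : ℤ) : Finset (ℤ × ℤ) :=
  if k = 0 then {(1, i), (1, i - 1), (2, i), (2, i - 2)}
  else if k = 1 then
    if t then {(1, i), (1, i - 1), (1, i + 1), (2, i - 2), (2, i + 1)}
    else {(1, i), (2, i), (2, i - 1)}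
  else
    if t then {(2, i), (2, i - 2), (1, i), (1, i - 1)}
    else {(2, i), (2, i + 2), (1, i + 2), (1, i + 1)}

def ty (c : Bool) (i : ℤ) : Bool := if c then decide (i % 2 = 1) else decide (i % 2 = 0)

lemma nb_link {c : Bool} {k i k' i' : ℤ} (hk : k = 0 ∨ k = 1 ∨ k = 2)
    (h : Nb c k i k' i')
    (h0 : k' ≠ 0) : (k', i') ∈ EE (ty c i) k i := by
  unfold Nb R at h
  unfold EE ty
  rcases Int.emod_two_eq_zero_or_one i with h1 | h1 <;>
  rcases Int.emod_two_eq_zero_or_one i' with h2 | h2 <;>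
  rcases hk with rfl | rfl | rfl <;> cases c <;>
  simp only [h1, h2, ↓reduceIte, Bool.false_eq_true, one_ne_zero, zero_ne_one,
    OfNat.ofNat_ne_zero, OfNat.ofNat_ne_one, decide_true, decide_false, mem_insert,
    mem_singleton, Prod.mk.injEq, true_and, false_and, and_true, and_false, false_or, or_false,
    OfNat.one_ne_ofNat, OfNat.zero_ne_ofNat] at h ⊢ <;> omega

lemma EE_card {t : Bool} {k i : ℤ} (h : ¬ (k = 1 ∧ t = true)) : (EE t k i).card ≤ 4 := by
  unfold EE
  split_ifs with h1 h2 h3 h3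
  · exact card_le_four
  · exact absurd ⟨h2, h3⟩ h
  · exact card_le_three.trans (by norm_num)
  · exact card_le_four
  · exact card_le_four

/-- the weights -/
def wt {M : ℕ} (G σ : ℕ) (q : Q M) : ℕ := if q.2.1 = 0 then G else σ

lemma kz_zero {M : ℕ} {q : Q M} : kz q = 0 ↔ q.2.1 = 0 := by
  unfold kz
  constructor
  · intro h
    apply Fin.ext
    simpa using h
  · intro h
    rw [h]
    rfl

lemma wsum_le {M G σ : ℕ} (C : Finset (Q M)) (c : Bool) (hc : ∀ r ∈ C, r.1 = c)
    (hA : ∀ r ∈ C, ∀ r' ∈ C, kz r = 0 → kz r' = 0 → iz r = iz r')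
    (E : Finset (ℤ × ℤ)) (hE : E.card ≤ 4) (hB : ∀ r ∈ C, kz r ≠ 0 → (kz r, iz r) ∈ E) :
    ∑ r ∈ C, wt G σ r ≤ G + 4 * σ := by
  classical
  rw [← sum_filter_add_sum_filter_not C (fun r => r.2.1 = 0)]
  apply Nat.add_le_add
  · calc ∑ r ∈ C.filter (fun r => r.2.1 = 0), wt G σ r
        = ∑ r ∈ C.filter (fun r => r.2.1 = 0), G := by
          apply sum_congr rfl
          intro r hr
          rw [mem_filter] at hr
          unfold wt
          rw [if_pos hr.2]
      _ = (C.filter (fun r => r.2.1 = 0)).card * G := by rw [sum_const, smul_eq_mul]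
      _ ≤ 1 * G := by
          apply Nat.mul_le_mul_right
          rw [card_le_one]
          intro r hr r' hr'
          rw [mem_filter] at hr hr'
          have h1 := kz_zero.2 hr.2
          have h2 := kz_zero.2 hr'.2
          exact q_ext ((hc r hr.1).trans (hc r' hr'.1).symm) (h1.trans h2.symm)
            (hA r hr.1 r' hr'.1 h1 h2)
      _ = G := one_mul _
  · calc ∑ r ∈ C.filter (fun r => ¬ r.2.1 = 0), wt G σ r
        = ∑ r ∈ C.filter (fun r => ¬ r.2.1 = 0), σ := by
          apply sum_congr rfl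
          intro r hr
          rw [mem_filter] at hr
          unfold wt
          rw [if_neg hr.2]
      _ = (C.filter (fun r => ¬ r.2.1 = 0)).card * σ := by rw [sum_const, smul_eq_mul]
      _ ≤ 4 * σ := by
          apply Nat.mul_le_mul_right
          refine le_trans ?_ hE
          apply card_le_card_of_injOn (fun r => (kz r, iz r))
          · intro r hr
            rw [mem_coe, mem_filter] at hr
            exact hB r hr.1 (fun h => hr.2 (kz_zero.1 h))
          · intro r hr r' hr' h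
            rw [mem_coe, mem_filter] at hr hr'
            simp only [Prod.mk.injEq] at h
            exact q_ext ((hc r hr.1).trans (hc r' hr'.1).symm) h.1 h.2

/-- common neighbours of two classes -/
lemma H1 {M G σ : ℕ} (p q : Q M) (hpq : p ≠ q) (hc : p.1 = q.1) :
    ∑ r ∈ univ.filter (fun r => (strip M).Cr p r ∧ (strip M).Cr q r), wt G σ r ≤ G + 4 * σ := by
  have hne : ¬ (kz p = kz q ∧ iz p = iz q) := fun h => hpq (q_ext hc h.1 h.2)
  have hpk := kz_cases p
  have hqk := kz_cases q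
  have hcol : ∀ r ∈ univ.filter (fun r => (strip M).Cr p r ∧ (strip M).Cr q r), r.1 = !p.1 := by
    intro r hr
    rw [mem_filter] at hr
    exact (nb_of_cr hr.2.1).1
  have hgen : ∀ r ∈ univ.filter (fun r => (strip M).Cr p r ∧ (strip M).Cr q r),
      ∀ r' ∈ univ.filter (fun r => (strip M).Cr p r ∧ (strip M).Cr q r),
      kz r = 0 → kz r' = 0 → iz r = iz r' := by
    intro r hr r' hr' h0 h0'
    rw [mem_filter] at hr hr'
    have a1 := (nb_of_cr hr.2.1).2
    have a2 := (nb_of_cr hr.2.2).2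
    have a3 := (nb_of_cr hr'.2.1).2
    have a4 := (nb_of_cr hr'.2.2).2
    rw [h0] at a1 a2
    rw [h0'] at a3 a4
    have b1 := nb_gen a1
    have b2 := nb_gen a2
    have b3 := nb_gen a3
    have b4 := nb_gen a4
    omega
  have hl1 : ∀ r ∈ univ.filter (fun r => (strip M).Cr p r ∧ (strip M).Cr q r), kz r ≠ 0 →
      (kz r, iz r) ∈ EE (ty p.1 (iz p)) (kz p) (iz p) := by
    intro r hr h0
    rw [mem_filter] at hr
    exact nb_link hpk (nb_of_cr hr.2.1).2 h0
  have hl2 : ∀ r ∈ univ.filter (fun r => (strip M).Cr p r ∧ (strip M).Cr q r), kz r ≠ 0 →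
      (kz r, iz r) ∈ EE (ty q.1 (iz q)) (kz q) (iz q) := by
    intro r hr h0
    rw [mem_filter] at hr
    exact nb_link hqk (nb_of_cr hr.2.2).2 h0
  by_cases c1 : kz p = 1 ∧ ty p.1 (iz p) = true
  · by_cases c2 : kz q = 1 ∧ ty q.1 (iz q) = true
    · apply wsum_le _ _ hcol hgen {(1, iz p + 1), (1, iz p - 1)}
      · exact card_le_two.trans (by norm_num)
      · intro r hr h0
        have d1 := hl1 r hr h0
        have d2 := hl2 r hr h0
        rw [c1.1, c1.2] at d1
        rw [c2.1, c2.2] at d2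
        have e1 := c1.2
        have e2 := c2.2
        rw [← hc] at e2
        unfold EE at d1 d2
        unfold ty at e1 e2
        rw [c1.1, c2.1] at hne
        cases hp : p.1 <;>
        simp only [hp, if_true, if_false, Bool.false_eq_true, one_ne_zero, mem_insert,
          mem_singleton, Prod.mk.injEq, true_and, decide_eq_true_eq] at d1 d2 e1 e2 hne ⊢ <;>
        omega
    · exact wsum_le _ _ hcol hgen _ (EE_card c2) hl2
  · exact wsum_le _ _ hcol hgen _ (EE_card c1) hl1

/-- neighbours of one class -/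
lemma H2 {M G σ : ℕ} (p : Q M) :
    wt G σ p ≤ σ ∨ ∑ r ∈ univ.filter (fun r => (strip M).Cr p r), wt G σ r ≤ G + 4 * σ := by
  by_cases h : kz p = 0
  · right
    apply wsum_le _ (!p.1) _ _ (EE (ty p.1 (iz p)) (kz p) (iz p))
    · apply EE_card
      rw [h]
      simp
    · intro r hr h0
      rw [mem_filter] at hr
      exact nb_link (kz_cases p) (nb_of_cr hr.2).2 h0
    · intro r hr
      rw [mem_filter] at hr
      exact (nb_of_cr hr.2).1
    · intro r hr r' hr' h0 h0'
      rw [mem_filter] at hr hr'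
      have a1 := (nb_of_cr hr.2).2
      have a3 := (nb_of_cr hr'.2).2
      rw [h0] at a1
      rw [h0'] at a3
      have b1 := nb_gen a1
      have b3 := nb_gen a3
      omega
  · left
    unfold wt
    rw [if_neg (fun h' => h (kz_zero.2 h'))]

end CG30
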